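import Pool.Agent.PFJ.Stmts
import Pool.Agent.Helper76_PFB.B_ORB

/-!
# PFJ squad (MP_e54c4c_gt), rows LSC and BAC (helper69)
-/

set_option autoImplicit false

open Matrix Filter Topology

namespace Pool.Agent.PFJ.H69

open Pool.Agent.PFS Pool.Agent.PFJ

variable {n : ℕ}

theorem exists_const_finrank (L : ℕ → Submodule ℝ (V n)) :
    ∃ (d : ℕ) (φ : ℕ → ℕ), StrictMono φ ∧ ∀ m, Module.finrank ℝ (L (φ m)) = d := by
  have h : ∃ d : ℕ, ∃ᶠ m in atTop, Module.finrank ℝ (L m) = d := by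
    by_contra hcon
    push Not at hcon
    have h1 : ∀ d : Fin (n + 1), ∀ᶠ m in atTop, Module.finrank ℝ (L m) ≠ d := fun d => hcon d
    have h2 : ∀ᶠ m in atTop, ∀ d : Fin (n + 1), Module.finrank ℝ (L m) ≠ d :=
      Filter.eventually_all.mpr h1
    obtain ⟨m, hm⟩ := h2.exists
    have h3 : Module.finrank ℝ (L m) ≤ n := by
      have := Submodule.finrank_le (L m)
      rwa [Module.finrank_fin_fun] at this
    exact hm ⟨Module.finrank ℝ (L m), by omega⟩ rfl
  obtain ⟨d, hd⟩ := h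
  obtain ⟨φ, hφ, h⟩ := Filter.extraction_of_frequently_atTop hd
  exact ⟨d, φ, hφ, h⟩

theorem orth_coord {d : ℕ} {v : Fin d → V n} (hv : ∀ i j, v i ⬝ᵥ v j = if i = j then 1 else 0)
    {x : V n} (hx : x ∈ Submodule.span ℝ (Set.range v)) : x = ∑ i, (x ⬝ᵥ v i) • v i := by
  obtain ⟨c, hc⟩ := (Submodule.mem_span_range_iff_exists_fun ℝ).mp hx
  have h : ∀ j, x ⬝ᵥ v j = c j := by
    intro j
    rw [← hc, sum_dotProduct]
    simp only [smul_dotProduct, hv, smul_eq_mul, mul_ite, mul_one, mul_zero]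
    simp
  conv_lhs => rw [← hc]
  exact Finset.sum_congr rfl fun i _ => by rw [h]

theorem orth_indep {d : ℕ} {v : Fin d → V n} (hv : ∀ i j, v i ⬝ᵥ v j = if i = j then 1 else 0) :
    LinearIndependent ℝ v := by
  rw [Fintype.linearIndependent_iff]
  intro g hg j
  have h1 : (∑ i, g i • v i) ⬝ᵥ v j = g j := by
    rw [sum_dotProduct]
    simp only [smul_dotProduct, hv, smul_eq_mul, mul_ite, mul_one, mul_zero]
    simp
  rw [hg, zero_dotProduct] at h1
  exact h1.symm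

theorem tendsto_dot {ι : Type} {l : Filter ι} {f g : ι → V n} {a b : V n} (hf : Tendsto f l (𝓝 a))
    (hg : Tendsto g l (𝓝 b)) : Tendsto (fun m => f m ⬝ᵥ g m) l (𝓝 (a ⬝ᵥ b)) := by
  unfold dotProduct
  refine tendsto_finset_sum _ fun k _ => ?_
  exact ((tendsto_pi_nhds.mp hf) k).mul ((tendsto_pi_nhds.mp hg) k)

/-- row LSC -/
theorem lsc : LscStmt := by
  intro n L
  obtain ⟨d, φ₁, hφ₁, hd⟩ := exists_const_finrank L
  have h := fun m => Pool.Agent.PFB.H76.orb n d (L (φ₁ m)) (hd m)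
  choose v hv1 hv2 hv3 hv4 using h
  have hb : ∀ m, v m ∈ Metric.closedBall (0 : Fin d → V n) 1 := by
    intro m
    rw [mem_closedBall_zero_iff, pi_norm_le_iff_of_nonneg zero_le_one]
    intro i
    rw [pi_norm_le_iff_of_nonneg zero_le_one]
    intro k
    rw [Real.norm_eq_abs]
    exact hv3 m i k
  obtain ⟨e, -, φ₂, hφ₂, he⟩ := tendsto_subseq_of_bounded Metric.isBounded_closedBall hb
  have he' : ∀ i, Tendsto (fun m => v (φ₂ m) i) atTop (𝓝 (e i)) := fun i =>
    (tendsto_pi_nhds.mp he) i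
  have hdot : ∀ i j, e i ⬝ᵥ e j = if i = j then 1 else 0 := by
    intro i j
    have h1 := tendsto_dot (he' i) (he' j)
    simp only [hv2] at h1
    exact tendsto_nhds_unique h1 tendsto_const_nhds
  have hfin : Module.finrank ℝ (Submodule.span ℝ (Set.range e)) = d := by
    rw [finrank_span_eq_card (orth_indep hdot), Fintype.card_fin]
  refine ⟨fun m => φ₁ (φ₂ m), Submodule.span ℝ (Set.range e), hφ₁.comp hφ₂, ⟨?_, ?_⟩,
    fun m => by rw [hd, hfin]⟩
  · intro x hx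
    obtain ⟨c, hc⟩ := (Submodule.mem_span_range_iff_exists_fun ℝ).mp hx
    refine ⟨fun m => ∑ i, c i • v (φ₂ m) i, fun m => ?_, ?_⟩
    · exact Submodule.sum_mem _ fun i _ => Submodule.smul_mem _ _ (hv1 (φ₂ m) i)
    · rw [← hc]
      exact tendsto_finset_sum _ fun i _ => (he' i).const_smul (c i)
  · intro ψ y x hψ hy hyx
    have h1 : ∀ m, y m = ∑ i, (y m ⬝ᵥ v (φ₂ (ψ m)) i) • v (φ₂ (ψ m)) i := by
      intro m
      refine orth_coord (hv2 (φ₂ (ψ m))) ?_
      rw [← hv4]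
      exact hy m
    have h2 : Tendsto (fun m => ∑ i, (y m ⬝ᵥ v (φ₂ (ψ m)) i) • v (φ₂ (ψ m)) i) atTop
        (𝓝 (∑ i, (x ⬝ᵥ e i) • e i)) := by
      refine tendsto_finset_sum _ fun i _ => ?_
      have h3 : Tendsto (fun m => v (φ₂ (ψ m)) i) atTop (𝓝 (e i)) :=
        (he' i).comp hψ.tendsto_atTop
      exact (tendsto_dot hyx h3).smul h3
    have h3 : x = ∑ i, (x ⬝ᵥ e i) • e i := by
      refine tendsto_nhds_unique hyx ?_
      exact h2.congr fun m => (h1 m).symm
    rw [h3]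
    exact Submodule.sum_mem _ fun i _ =>
      Submodule.smul_mem _ _ (Submodule.subset_span ⟨i, rfl⟩)

/-- row BAC -/
theorem bac (img_ : ImgStmt) : BacStmt := by
  intro n C Γ h K L w β hb g hg s hs
  refine ⟨(Pool.Agent.PFS.H60.elm n C Γ h (Fin K) w hb.pes).2.1 g hg s hs, ?_, ?_, ?_, ?_, ?_,
    hb.three⟩
  · intro i
    exact Submodule.smul_mem _ _ (mem_img.mpr ⟨w i, hb.mem i, rfl⟩)
  · intro x hx hsum
    choose y hy hxy using fun a => mem_img.mp (hx a)
    have e : ∑ a, x a = act g (∑ a, y a) := by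
      rw [CC.act_sum]
      exact Finset.sum_congr rfl fun a _ => (hxy a).symm
    rw [e, h.act_cl_iff hg] at hsum
    intro a
    rw [← hxy a]
    exact h.act_cl hg (hb.comp y hy hsum a)
  · intro a ha
    show img g (L a) = ⊥
    rw [hb.bot a ha]
    exact Submodule.map_bot _
  · intro i hi x hx
    obtain ⟨y, hy, rfl⟩ := mem_img.mp hx
    obtain ⟨c, rfl⟩ := hb.one i hi y hy
    refine ⟨c / s, ?_⟩
    rw [CC.act_smul, smul_smul, div_mul_cancel₀ c hs.ne']
  · intro i j hij hβ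
    rw [(img_ n).1]
    exact hb.two i j hij hβ

end Pool.Agent.PFJ.H69
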